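import Mathlib

namespace Pool.Agent.Results.MP_41caf5_nt.Counter

lemma not_pow : ¬ ∃ (x : ℤ) (m : ℕ), 1 < m ∧ (-16 : ℤ) = x ^ m := by
  rintro ⟨x, m, hm, h⟩
  have h1 : (16 : ℕ) = x.natAbs ^ m := by
    have := congrArg Int.natAbs h
    rwa [Int.natAbs_pow] at this
  rcases Nat.even_or_odd m with he | ho
  · have := he.pow_nonneg x
    omega
  · have hx : 2 ≤ x.natAbs := by
      by_contra hc
      have : x.natAbs = 0 ∨ x.natAbs = 1 := by omega
      rcases this with h0 | h0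
      · rw [h0, zero_pow (by omega)] at h1; omega
      · rw [h0, one_pow] at h1; omega
    have hm5 : m < 5 := by
      by_contra hc
      have h2 : 2 ^ 5 ≤ 2 ^ m := Nat.pow_le_pow_right (by norm_num) (by omega)
      have h3 : 2 ^ m ≤ x.natAbs ^ m := Nat.pow_le_pow_left hx m
      omega
    obtain ⟨k, hk⟩ := ho
    have hm3 : m = 3 := by omega
    subst hm3
    have hx3 : x.natAbs < 3 := by
      by_contra hc
      have : 3 ^ 3 ≤ x.natAbs ^ 3 := Nat.pow_le_pow_left (by omega) 3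
      omega
    have : x.natAbs = 2 := by omega
    rw [this] at h1
    omega

lemma key (p : ℕ) (hp : p.Prime) (h : IsPrimitiveRoot (((-16 : ℤ) : ZMod p)) (p - 1)) :
    IsPrimitiveRoot (((-4 : ℤ) : ZMod p)) (p - 1) := by
  have : Fact p.Prime := ⟨hp⟩
  have h2 := hp.two_le
  have e16 : (((-16 : ℤ) : ZMod p)) = -(2 : ZMod p) ^ 4 := by push_cast; ring
  have e4 : (((-4 : ℤ) : ZMod p)) = -(2 : ZMod p) ^ 2 := by push_cast; ring
  rw [e16] at h
  rw [e4]
  have hne : (2 : ZMod p) ≠ 0 := by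
    intro h0
    have := h.pow_eq_one
    rw [h0] at this
    simp only [ne_eq, OfNat.ofNat_ne_zero, not_false_eq_true, zero_pow, neg_zero] at this
    rw [zero_pow (by omega)] at this
    exact zero_ne_one this
  have hp2 : p ≠ 2 := by
    rintro rfl
    exact hne rfl
  obtain ⟨m, hm⟩ := hp.odd_of_ne_two hp2
  have hpm : p - 1 = 2 * m := by omega
  have hm0 : 0 < m := by omega
  have hf : (2 : ZMod p) ^ (2 * m) = 1 := by
    rw [← hpm]; exact ZMod.pow_card_sub_one_eq_one hne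
  have hodd : Odd m := by
    by_contra hc
    have he : Even m := Nat.not_odd_iff_even.mp hc
    have h3 : (-(2 : ZMod p) ^ 4) ^ m = 1 := by
      rw [he.neg_pow, ← pow_mul, show 4 * m = 2 * m * 2 by ring, pow_mul, hf, one_pow]
    have h4 := h.dvd_of_pow_eq_one _ h3
    rw [hpm] at h4
    have := Nat.le_of_dvd hm0 h4
    omega
  have h5 : (-(2 : ZMod p) ^ 2) ^ (m + 2) = -(2 : ZMod p) ^ 4 := by
    rw [pow_add, hodd.neg_pow, ← pow_mul, hf]
    ring
  constructor
  · apply ZMod.pow_card_sub_one_eq_one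
    exact neg_ne_zero.mpr (pow_ne_zero _ hne)
  · intro l hl
    apply h.dvd_of_pow_eq_one
    rw [← h5, ← pow_mul, mul_comm, pow_mul, hl, one_pow]

theorem result :
    ¬ ∀ a : ℤ, a < 0 → (¬ ∃ (x : ℤ) (m : ℕ), 1 < m ∧ a = x ^ m) →
      Set.Infinite {p : ℕ | p.Prime ∧ IsPrimitiveRoot ((a : ZMod p)) (p - 1) ∧
        ∀ b : ℤ, a < b → b < 0 → ¬ IsPrimitiveRoot ((b : ZMod p)) (p - 1)} := by
  intro h
  obtain ⟨p, hp, h1, h2⟩ := (h (-16) (by norm_num) not_pow).nonempty
  exact h2 (-4) (by norm_num) (by norm_num) (key p hp h1)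

end Pool.Agent.Results.MP_41caf5_nt.Counter
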